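import Mathlib

namespace Pool.Agent.H552Stamp

/-- abstract folding on heights `0..n`: `g i` is the height of segment `i`. -/
structure Fold (n : ℕ) (g : ℕ → ℕ) : Prop where
  bd : ∀ i, i ≤ n → g i ≤ n
  inj : ∀ i, i ≤ n → ∀ j, j ≤ n → g i = g j → i = j
  surj : ∀ p, p ≤ n → ∃ i, i ≤ n ∧ g i = p
  nc : ∀ i, i < n → ∀ j, j < n → i ≠ j → i % 2 = j % 2 → ∀ a b c d : ℕ,
    ((g i = a ∧ g (i+1) = b) ∨ (g i = b ∧ g (i+1) = a)) →
    ((g j = c ∧ g (j+1) = d) ∨ (g j = d ∧ g (j+1) = c)) →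
    a < c → c < b → b < d → False

def Rel (n : ℕ) (g : ℕ → ℕ) (s : ℕ) (a b : ℕ) : Prop :=
  ∃ i, i < n ∧ i % 2 = s ∧ ((g i = a ∧ g (i+1) = b) ∨ (g i = b ∧ g (i+1) = a))

variable {n : ℕ} {g g' : ℕ → ℕ} {s : ℕ}

theorem Rel.symm {a b : ℕ} (h : Rel n g s a b) : Rel n g s b a := by
  obtain ⟨i, h1, h2, h3⟩ := h
  exact ⟨i, h1, h2, h3.symm⟩

theorem Rel.uniq (hg : Fold n g) {a b c : ℕ} (h : Rel n g s a b) (h' : Rel n g s a c) : b = c := by
  obtain ⟨i, h1, h2, h3⟩ := h
  obtain ⟨j, h1', h2', h3'⟩ := h'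
  rcases h3 with ⟨e1, e2⟩ | ⟨e1, e2⟩ <;> rcases h3' with ⟨f1, f2⟩ | ⟨f1, f2⟩
  · have := hg.inj i (by omega) j (by omega) (by rw [e1, f1])
    subst this; rw [← e2, ← f2]
  · have := hg.inj i (by omega) (j+1) (by omega) (by rw [e1, f2])
    omega
  · have := hg.inj (i+1) (by omega) j (by omega) (by rw [e2, f1])
    omega
  · have := hg.inj (i+1) (by omega) (j+1) (by omega) (by rw [e2, f2])
    have : i = j := by omega
    subst this; rw [← e1, ← f1]

theorem Rel.ne (hg : Fold n g) {a b : ℕ} (h : Rel n g s a b) : a ≠ b := by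
  obtain ⟨i, h1, h2, h3⟩ := h
  intro hab
  subst hab
  rcases h3 with ⟨e1, e2⟩ | ⟨e1, e2⟩
  · have := hg.inj i (by omega) (i+1) (by omega) (by rw [e1, e2])
    omega
  · have := hg.inj i (by omega) (i+1) (by omega) (by rw [e1, e2])
    omega

theorem Rel.nc (hg : Fold n g) {a b c d : ℕ} (h : Rel n g s a b) (h' : Rel n g s c d)
    (h1 : a < c) (h2 : c < b) (h3 : b < d) : False := by
  obtain ⟨i, i1, i2, i3⟩ := h
  obtain ⟨j, j1, j2, j3⟩ := h'
  by_cases hij : i = j
  · subst hij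
    omega
  · exact hg.nc i i1 j j1 hij (by omega) a b c d i3 j3 h1 h2 h3

theorem Rel.exists (hg : Fold n g) {p : ℕ} (hp : p ≤ n) (hs : s < 2)
    (h0 : ¬ (p = g 0 ∧ s = 1)) (hn : ¬ (p = g n ∧ s = n % 2)) : ∃ q, Rel n g s p q := by
  obtain ⟨i, hi, hgi⟩ := hg.surj p hp
  by_cases his : i % 2 = s
  · have hin : i < n := by
      rcases Nat.lt_or_ge i n with h | h
      · exact h
      · exfalso
        have : i = n := by omega
        subst this
        exact hn ⟨hgi.symm, his.symm⟩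
    exact ⟨g (i+1), i, hin, his, Or.inl ⟨hgi, rfl⟩⟩
  · have hi0 : i ≠ 0 := by
      intro h
      subst h
      exact h0 ⟨hgi.symm, by omega⟩
    obtain ⟨k, rfl⟩ : ∃ k, i = k + 1 := ⟨i - 1, by omega⟩
    exact ⟨g k, k, by omega, by omega, Or.inr ⟨rfl, hgi⟩⟩

theorem Rel.not_exists (hg : Fold n g) {p q : ℕ} (h : Rel n g s p q) :
    ¬ (p = g 0 ∧ s = 1) ∧ ¬ (p = g n ∧ s = n % 2) := by
  obtain ⟨i, i1, i2, i3⟩ := h
  constructor
  · rintro ⟨e1, e2⟩
    subst e1
    rcases i3 with ⟨f1, f2⟩ | ⟨f1, f2⟩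
    · have := hg.inj i (by omega) 0 (by omega) f1
      omega
    · have := hg.inj (i+1) (by omega) 0 (by omega) f2
      omega
  · rintro ⟨e1, e2⟩
    subst e1
    rcases i3 with ⟨f1, f2⟩ | ⟨f1, f2⟩
    · have := hg.inj i (by omega) n (by omega) f1
      omega
    · have := hg.inj (i+1) (by omega) n (by omega) f2
      omega

theorem Rel.bd (hg : Fold n g) {p q : ℕ} (h : Rel n g s p q) : p ≤ n := by
  obtain ⟨i, i1, i2, i3⟩ := h
  rcases i3 with ⟨f1, f2⟩ | ⟨f1, f2⟩
  · rw [← f1]; exact hg.bd i (by omega)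
  · rw [← f2]; exact hg.bd (i+1) (by omega)

/-- closer at side `s`: has a lower mate -/
def Cl (n : ℕ) (g : ℕ → ℕ) (s p : ℕ) : Prop := ∃ q, q < p ∧ Rel n g s p q

open Classical in
noncomputable def v (n : ℕ) (g : ℕ → ℕ) (s p : ℕ) : ℤ := if Cl n g s p then -1 else 1

theorem v_add (hg : Fold n g) {x y : ℕ} (h : Rel n g s x y) : v n g s x + v n g s y = 0 := by
  have hne := h.ne hg
  rcases Nat.lt_or_gt_of_ne hne with hlt | hlt
  · have h1 : Cl n g s y := ⟨x, hlt, h.symm⟩
    have h2 : ¬ Cl n g s x := by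
      rintro ⟨z, hz, hr⟩
      have := Rel.uniq hg h hr
      omega
    simp [v, h1, h2]
  · have h1 : Cl n g s x := ⟨y, hlt, h⟩
    have h2 : ¬ Cl n g s y := by
      rintro ⟨z, hz, hr⟩
      have := Rel.uniq hg h.symm hr
      omega
    simp [v, h1, h2]

theorem sum_matched (hg : Fold n g) (p r : ℕ)
    (h : ∀ x ∈ Finset.Ico p r, ∃ y ∈ Finset.Ico p r, Rel n g s x y) :
    ∑ x ∈ Finset.Ico p r, v n g s x = 0 := by
  choose! f hf1 hf2 using h
  refine Finset.sum_involution (fun a _ => f a) ?_ ?_ ?_ ?_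
  · intro a ha
    exact v_add hg (hf2 a ha)
  · intro a ha _ h3
    exact (hf2 a ha).ne hg h3.symm
  · intro a ha
    exact hf1 a ha
  · intro a ha
    have h1 := hf2 a ha
    have h2 := hf2 (f a) (hf1 a ha)
    exact (Rel.uniq hg h1.symm h2).symm

/-- all closers of a nonnegative interval are matched inside -/
theorem closers_inside (hg : Fold n g) (hs : s < 2) (p q : ℕ) (hq : q ≤ n + 1)
    (h0 : ∀ x ∈ Finset.Ico p q, x ≠ g 0) (hn : ∀ x ∈ Finset.Ico p q, x ≠ g n)
    (hpos : ∀ r, p ≤ r → r ≤ q → 0 ≤ ∑ x ∈ Finset.Ico p r, v n g s x) :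
    ∀ r, r ∈ Finset.Ico p q → ∀ c, c < r → Rel n g s r c → p ≤ c := by
  intro r
  induction r using Nat.strong_induction_on with
  | _ r ih =>
    intro hr c hc hrel
    by_contra hcp
    push Not at hcp
    rw [Finset.mem_Ico] at hr
    have hm : ∀ x ∈ Finset.Ico p r, ∃ y ∈ Finset.Ico p r, Rel n g s x y := by
      intro x hx
      rw [Finset.mem_Ico] at hx
      have hxI : x ∈ Finset.Ico p q := by rw [Finset.mem_Ico]; omega
      obtain ⟨y, hy⟩ := Rel.exists (s := s) hg (p := x) (by omega) hs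
        (fun h => h0 x hxI h.1) (fun h => hn x hxI h.1)
      refine ⟨y, ?_, hy⟩
      rw [Finset.mem_Ico]
      have hne := hy.ne hg
      rcases Nat.lt_or_gt_of_ne hne with hlt | hlt
      · refine ⟨by omega, ?_⟩
        by_contra hyr
        push Not at hyr
        rcases Nat.eq_or_lt_of_le hyr with h | h
        · subst h
          have := Rel.uniq hg hrel hy.symm
          omega
        · exact Rel.nc hg hrel.symm hy (by omega) (by omega) h
      · refine ⟨ih x (by omega) hxI y hlt hy, by omega⟩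
    have hz := sum_matched hg p r hm
    have hp1 := hpos (r+1) (by omega) (by omega)
    rw [Finset.sum_Ico_succ_top (by omega), hz] at hp1
    have hcl : Cl n g s r := ⟨c, hc, hrel⟩
    simp [v, hcl] at hp1

theorem openers_inside (hg : Fold n g) (hs : s < 2) (p q : ℕ) (hq : q ≤ n + 1)
    (h0 : ∀ x ∈ Finset.Ico p q, x ≠ g 0) (hn : ∀ x ∈ Finset.Ico p q, x ≠ g n)
    (hpos : ∀ r, p ≤ r → r ≤ q → 0 ≤ ∑ x ∈ Finset.Ico p r, v n g s x)
    (hzero : ∑ x ∈ Finset.Ico p q, v n g s x = 0) :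
    ∀ k r, q - r = k → r ∈ Finset.Ico p q → ∀ c, r < c → Rel n g s r c → c < q := by
  intro k
  induction k using Nat.strong_induction_on with
  | _ k ih =>
    intro r hk hr c hc hrel
    by_contra hcp
    push Not at hcp
    rw [Finset.mem_Ico] at hr
    have hm : ∀ x ∈ Finset.Ico (r+1) q, ∃ y ∈ Finset.Ico (r+1) q, Rel n g s x y := by
      intro x hx
      rw [Finset.mem_Ico] at hx
      have hxI : x ∈ Finset.Ico p q := by rw [Finset.mem_Ico]; omega
      obtain ⟨y, hy⟩ := Rel.exists (s := s) hg (p := x) (by omega) hs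
        (fun h => h0 x hxI h.1) (fun h => hn x hxI h.1)
      refine ⟨y, ?_, hy⟩
      rw [Finset.mem_Ico]
      have hne := hy.ne hg
      rcases Nat.lt_or_gt_of_ne hne with hlt | hlt
      · refine ⟨by omega, ih (q - x) (by omega) x rfl hxI y hlt hy⟩
      · refine ⟨?_, by omega⟩
        by_contra hyr
        push Not at hyr
        have hyr' : y ≤ r := by omega
        rcases Nat.eq_or_lt_of_le hyr' with h | h
        · subst h
          have := Rel.uniq hg hrel hy.symm
          omega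
        · exact Rel.nc hg hy.symm hrel h (by omega) (by omega)
    have hz := sum_matched hg (r+1) q hm
    have hp1 := hpos r (by omega) (by omega)
    have hsplit := Finset.sum_Ico_consecutive (fun x => v n g s x) (show p ≤ r+1 by omega)
      (show r + 1 ≤ q by omega)
    rw [hz, hzero, Finset.sum_Ico_succ_top (by omega)] at hsplit
    have hcl : ¬ Cl n g s r := by
      rintro ⟨z, hz, hr'⟩
      have := Rel.uniq hg hrel hr'
      omega
    have hv : v n g s r = 1 := by simp [v, hcl]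
    rw [hv] at hsplit
    omega

/-- Claim 1: no doubly balanced interval avoiding both ends of the strip -/
theorem no_balanced (hg : Fold n g) (p q : ℕ) (hpq : p < q) (hq : q ≤ n + 1)
    (h0 : ∀ x ∈ Finset.Ico p q, x ≠ g 0) (hn : ∀ x ∈ Finset.Ico p q, x ≠ g n)
    (hpos : ∀ s, s < 2 → ∀ r, p ≤ r → r ≤ q → 0 ≤ ∑ x ∈ Finset.Ico p r, v n g s x)
    (hzero : ∀ s, s < 2 → ∑ x ∈ Finset.Ico p q, v n g s x = 0) : False := by
  classical
  have hmate : ∀ s, s < 2 → ∀ x ∈ Finset.Ico p q, ∀ y, Rel n g s x y → y ∈ Finset.Ico p q := by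
    intro s hs x hx y hy
    have hne := hy.ne hg
    rcases Nat.lt_or_gt_of_ne hne with hlt | hlt
    · have := openers_inside hg hs p q hq h0 hn (hpos s hs) (hzero s hs) _ x rfl hx y hlt hy
      rw [Finset.mem_Ico] at hx ⊢; omega
    · have := closers_inside hg hs p q hq h0 hn (hpos s hs) x hx y hlt hy
      rw [Finset.mem_Ico] at hx ⊢; omega
  have key : ∀ i, i ≤ n → g i ∈ Finset.Ico p q → False := by
    intro i
    induction i with
    | zero =>
      intro _ h
      exact h0 _ h rfl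
    | succ k ih =>
      intro hk h
      refine ih (by omega) ?_
      exact hmate (k % 2) (by omega) _ h _ ⟨k, by omega, rfl, Or.inr ⟨rfl, rfl⟩⟩
  obtain ⟨i, hi, hgi⟩ := hg.surj p (by omega)
  exact key i hi (by rw [hgi, Finset.mem_Ico]; omega)

theorem rel_transfer (hg : Fold n g) (hg' : Fold n g') (hs : s < 2) (e0 : g 0 = g' 0)
    (en : g n = g' n) (hcl : ∀ x, x ≤ n → (Cl n g s x ↔ Cl n g' s x)) (d : ℕ)
    (ih : ∀ p q, p < q → q - p < d → (Rel n g s p q ↔ Rel n g' s p q))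
    (p q : ℕ) (hpq : p < q) (hd : q - p = d) (h : Rel n g s p q) : Rel n g' s p q := by
  have hqn : q ≤ n := h.symm.bd hg
  obtain ⟨c, hc, hrc⟩ := (hcl q hqn).1 ⟨p, hpq, h.symm⟩
  have hpcl : ¬ Cl n g' s p := by
    rw [← hcl p (by omega)]
    rintro ⟨z, hz, hr⟩
    have := Rel.uniq hg h hr
    omega
  obtain ⟨u1, u2⟩ := h.not_exists hg
  rw [e0] at u1
  rw [en] at u2
  obtain ⟨p', hp'⟩ := Rel.exists hg' (p := p) (s := s) (by omega) hs u1 u2
  have hpp' : p < p' := by
    rcases Nat.lt_or_gt_of_ne (hp'.ne hg') with hlt | hlt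
    · exact hlt
    · exact absurd ⟨p', hlt, hp'⟩ hpcl
  rcases lt_trichotomy c p with hcp | hcp | hcp
  · exfalso
    rcases lt_trichotomy p' q with h1 | h1 | h1
    · have := (ih p p' hpp' (by omega)).2 hp'
      have := Rel.uniq hg h this
      omega
    · subst h1
      have := Rel.uniq hg' hp'.symm hrc
      omega
    · exact Rel.nc hg' hrc.symm hp' hcp hpq h1
  · subst hcp
    exact hrc.symm
  · exfalso
    have := (ih c q hc (by omega)).2 hrc.symm
    have := Rel.uniq hg h.symm this.symm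
    omega

theorem rel_iff (hg : Fold n g) (hg' : Fold n g') (hs : s < 2) (e0 : g 0 = g' 0)
    (en : g n = g' n) (hcl : ∀ x, x ≤ n → (Cl n g s x ↔ Cl n g' s x)) :
    ∀ d p q, p < q → q - p = d → (Rel n g s p q ↔ Rel n g' s p q) := by
  intro d
  induction d using Nat.strong_induction_on with
  | _ d ih =>
    intro p q hpq hd
    constructor
    · intro h
      exact rel_transfer hg hg' hs e0 en hcl d (fun p q h1 h2 => ih _ h2 p q h1 rfl) p q hpq hd h
    · intro h
      exact rel_transfer hg' hg hs e0.symm en.symm (fun x hx => (hcl x hx).symm) d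
        (fun p q h1 h2 => (ih _ h2 p q h1 rfl).symm) p q hpq hd h

theorem determined (hg : Fold n g) (hg' : Fold n g') (e0 : g 0 = g' 0)
    (en : g n = g' n) (hcl : ∀ s, s < 2 → ∀ x, x ≤ n → (Cl n g s x ↔ Cl n g' s x)) :
    ∀ i, i ≤ n → g i = g' i := by
  intro i
  induction i with
  | zero => intro _; exact e0
  | succ k ih =>
    intro hk
    have e := ih (by omega)
    have hs : k % 2 < 2 := by omega
    have r1 : Rel n g (k % 2) (g k) (g (k+1)) := ⟨k, by omega, rfl, Or.inl ⟨rfl, rfl⟩⟩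
    have r2 : Rel n g' (k % 2) (g' k) (g' (k+1)) := ⟨k, by omega, rfl, Or.inl ⟨rfl, rfl⟩⟩
    have hiff := rel_iff hg hg' hs e0 en (hcl _ hs)
    have r3 : Rel n g' (k % 2) (g k) (g (k+1)) := by
      rcases Nat.lt_or_gt_of_ne (r1.ne hg) with hlt | hlt
      · exact (hiff _ _ _ hlt rfl).1 r1
      · exact ((hiff _ _ _ hlt rfl).1 r1.symm).symm
    rw [e] at r3
    exact Rel.uniq hg' r3 r2

end Pool.Agent.H552Stamp
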